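import Pool.Agent.Q261.L2.KintA

/-!
# The integral of `u K_{iT}(u)²` (job S_KINT of project L2 of helper255): Fubini
-/

set_option autoImplicit false

namespace Pool.Agent.Q261.L2

open Filter Topology MeasureTheory Set

theorem int_u {S : ℝ} (hS : 0 < S) : IntegrableOn (fun u : ℝ => u * Real.exp (-(S * u))) (Ioi 0) ∧
    ∫ u in Ioi (0 : ℝ), u * Real.exp (-(S * u)) = 1 / S ^ 2 := by
  constructor
  · have h1 := integrableOn_rpow_mul_exp_neg_mul_rpow (s := 1) (p := 1) (b := S) (by norm_num) one_pos hS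
    refine h1.congr_fun (fun u _ => ?_) measurableSet_Ioi
    dsimp only
    rw [Real.rpow_one, neg_mul]
  · have h1 := Real.integral_rpow_mul_exp_neg_mul_Ioi (a := 2) (r := S) (by norm_num) hS
    have h2 : (∫ u in Ioi (0 : ℝ), u * Real.exp (-(S * u))) = ∫ t in Ioi (0 : ℝ), t ^ ((2 : ℝ) - 1) * Real.exp (-(S * t)) := by
      refine setIntegral_congr_fun measurableSet_Ioi fun u _ => ?_
      change u * Real.exp (-(S * u)) = u ^ ((2 : ℝ) - 1) * Real.exp (-(S * u))
      rw [show (2 : ℝ) - 1 = 1 by norm_num, Real.rpow_one]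
    rw [h2, h1, Real.Gamma_two, mul_one, Real.rpow_two]
    ring

/-- the integrand -/
noncomputable def FF (T : ℝ) (z : ℝ × (ℝ × ℝ)) : ℂ :=
  ((z.1 * (Real.exp (-(z.1 * Real.cosh z.2.1)) * Real.exp (-(z.1 * Real.cosh z.2.2))) : ℝ) : ℂ) * (ex T z.2.1 * ex T z.2.2)

theorem FF_cont (T : ℝ) : Continuous (FF T) := by
  unfold FF
  have h1 := ex_cont T
  have h2 := Real.continuous_cosh
  fun_prop

theorem FF_eq (T u : ℝ) (y : ℝ × ℝ) : FF T (u, y) =
    ((u * Real.exp (-((Real.cosh y.1 + Real.cosh y.2) * u)) : ℝ) : ℂ) * (ex T y.1 * ex T y.2) := by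
  unfold FF
  dsimp only
  rw [← Real.exp_add]
  congr 4
  ring

theorem S_pos (y : ℝ × ℝ) : 0 < Real.cosh y.1 + Real.cosh y.2 := add_pos (Real.cosh_pos _) (Real.cosh_pos _)

theorem int_S : Integrable (fun y : ℝ × ℝ => 1 / (Real.cosh y.1 + Real.cosh y.2) ^ 2) (volume.prod volume) := by
  refine ((int_inv_cosh.mul_prod int_inv_cosh)).mono' (by
    refine Continuous.aestronglyMeasurable ?_
    refine continuous_const.div ?_ fun y => pow_ne_zero 2 (S_pos y).ne'
    exact ((Real.continuous_cosh.comp continuous_fst).add (Real.continuous_cosh.comp continuous_snd)).pow 2)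
    (Eventually.of_forall fun y => ?_)
  have h1 := Real.cosh_pos y.1
  have h2 := Real.cosh_pos y.2
  rw [Real.norm_eq_abs, abs_of_pos (by positivity), one_div_mul_one_div]
  refine one_div_le_one_div_of_le (by positivity) ?_
  nlinarith [sq_nonneg (Real.cosh y.1 - Real.cosh y.2), mul_pos h1 h2]

theorem FF_int (T : ℝ) : Integrable (FF T) ((volume.restrict (Ioi 0)).prod (volume.prod volume)) := by
  refine (integrable_prod_iff' (FF_cont T).aestronglyMeasurable).2 ⟨Eventually.of_forall fun y => ?_, ?_⟩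
  · have h1 := (int_u (S_pos y)).1.ofReal (𝕜 := ℂ)
    refine (h1.mul_const (ex T y.1 * ex T y.2)).congr (Eventually.of_forall fun u => ?_)
    dsimp only
    rw [FF_eq]
    rfl
  · refine int_S.congr (Eventually.of_forall fun y => ?_)
    dsimp only
    rw [← (int_u (S_pos y)).2]
    refine setIntegral_congr_fun measurableSet_Ioi fun u hu => ?_
    change u * Real.exp (-((Real.cosh y.1 + Real.cosh y.2) * u)) = ‖FF T (u, y)‖
    rw [FF_eq, norm_mul, norm_mul, ex_norm, ex_norm, mul_one, mul_one, Complex.norm_real, Real.norm_eq_abs,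
      abs_of_nonneg (mul_nonneg (le_of_lt hu) (Real.exp_pos _).le)]

/-- the function of two variables -/
noncomputable def PP (T : ℝ) (y : ℝ × ℝ) : ℂ :=
  ((1 / (Real.cosh y.1 + Real.cosh y.2) ^ 2 : ℝ) : ℂ) * (ex T y.1 * ex T y.2)

theorem PP_int (T : ℝ) : Integrable (PP T) (volume.prod volume) := by
  refine int_S.mono' (by
    refine Continuous.aestronglyMeasurable ?_
    unfold PP
    refine Continuous.mul (Complex.continuous_ofReal.comp ?_) ?_
    · refine continuous_const.div ?_ fun y => pow_ne_zero 2 (S_pos y).ne'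
      exact ((Real.continuous_cosh.comp continuous_fst).add (Real.continuous_cosh.comp continuous_snd)).pow 2
    · exact ((ex_cont T).comp continuous_fst).mul ((ex_cont T).comp continuous_snd)) (Eventually.of_forall fun y => ?_)
  unfold PP
  have := S_pos y
  rw [norm_mul, norm_mul, ex_norm, ex_norm, mul_one, mul_one, Complex.norm_real, Real.norm_eq_abs, abs_of_pos (by positivity)]

theorem inner_u (T : ℝ) (y : ℝ × ℝ) : ∫ u in Ioi (0 : ℝ), FF T (u, y) = PP T y := by
  unfold PP
  rw [← (int_u (S_pos y)).2, ← integral_complex_ofReal, ← integral_mul_const]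
  refine setIntegral_congr_fun measurableSet_Ioi fun u _ => ?_
  exact FF_eq T u y

theorem PP_shift (T x q : ℝ) : PP T (q + x / 2, x - (q + x / 2)) =
    (ex T x * ((1 / (4 * Real.cosh (x / 2) ^ 2) : ℝ) : ℂ)) * ((1 / Real.cosh q ^ 2 : ℝ) : ℂ) := by
  unfold PP
  dsimp only
  rw [← ex_add, show q + x / 2 + (x - (q + x / 2)) = x by ring]
  have h1 : Real.cosh (q + x / 2) + Real.cosh (x - (q + x / 2)) = 2 * Real.cosh (x / 2) * Real.cosh q := by
    rw [show x - (q + x / 2) = x / 2 - q by ring, Real.cosh_add, Real.cosh_sub]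
    ring
  rw [h1]
  have h2 : (1 / (2 * Real.cosh (x / 2) * Real.cosh q) ^ 2 : ℝ) = 1 / (4 * Real.cosh (x / 2) ^ 2) * (1 / Real.cosh q ^ 2) := by
    rw [one_div_mul_one_div]
    congr 1
    ring
  rw [h2, Complex.ofReal_mul]
  ring

theorem PP_val {T : ℝ} (hT : 0 < T) : ∫ y, PP T y ∂(volume.prod volume) =
    ((2 * (Real.pi * T / Real.sinh (Real.pi * T)) : ℝ) : ℂ) := by
  rw [integral_prod _ (PP_int T)]
  have h1 : ∀ a : ℝ, ∫ b : ℝ, PP T (a, b) = ∫ x : ℝ, PP T (a, x - a) := fun a =>
    (integral_sub_right_eq_self (fun b => PP T (a, b)) a).symm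
  rw [integral_congr_ae (Eventually.of_forall h1)]
  have h2 : Integrable (Function.uncurry fun a x => PP T (a, x - a)) (volume.prod volume) := by
    have h3 := (measurePreserving_prod_neg_add (volume : Measure ℝ) (volume : Measure ℝ)).integrable_comp_of_integrable (PP_int T)
    refine h3.congr (Eventually.of_forall fun z => ?_)
    change PP T (z.1, -z.1 + z.2) = PP T (z.1, z.2 - z.1)
    rw [neg_add_eq_sub]
  rw [integral_integral_swap h2]
  have h4 : ∀ x : ℝ, ∫ a : ℝ, PP T (a, x - a) = 2 * (ex T x * ((Real.exp x / (1 + Real.exp x) ^ 2 : ℝ) : ℂ)) := by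
    intro x
    rw [← integral_add_right_eq_self (fun a => PP T (a, x - a)) (x / 2)]
    rw [integral_congr_ae (Eventually.of_forall fun q => PP_shift T x q), integral_const_mul, integral_complex_ofReal,
      int_cosh_sq]
    have h5 : (1 / (4 * Real.cosh (x / 2) ^ 2) : ℝ) = Real.exp x / (1 + Real.exp x) ^ 2 := by
      have h6 := cosh_sq (x / 2)
      rw [show 2 * (x / 2) = x by ring] at h6
      have h7 : (1 / (4 * Real.cosh (x / 2) ^ 2) : ℝ) = 1 / 4 * (1 / Real.cosh (x / 2) ^ 2) := by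
        rw [one_div_mul_one_div]
      rw [h7, h6]
      ring
    rw [h5]
    push_cast
    ring
  rw [integral_congr_ae (Eventually.of_forall h4), integral_const_mul, beta_val hT]
  push_cast
  ring

/-- the computation -/
theorem kint {T : ℝ} (hT : 0 < T) :
    IntegrableOn (fun u => u * (∫ t in Ioi (0 : ℝ), Real.exp (-(u * Real.cosh t)) * Real.cos (T * t)) ^ 2) (Ioi 0) ∧
    ∫ u in Ioi (0 : ℝ), 2 * (u * (∫ t in Ioi (0 : ℝ), Real.exp (-(u * Real.cosh t)) * Real.cos (T * t)) ^ 2) =
      Real.pi * T / Real.sinh (Real.pi * T) := by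
  set K : ℝ → ℝ := fun u => ∫ t in Ioi (0 : ℝ), Real.exp (-(u * Real.cosh t)) * Real.cos (T * t) with hK
  have h1 : ∀ u ∈ Ioi (0 : ℝ), ∫ y, FF T (u, y) ∂(volume.prod volume) = ((4 * (u * K u ^ 2) : ℝ) : ℂ) := by
    intro u hu
    have h2 : (fun y : ℝ × ℝ => FF T (u, y)) = fun y : ℝ × ℝ => (u : ℂ) *
        ((((Real.exp (-(u * Real.cosh y.1)) : ℝ) : ℂ) * ex T y.1) * (((Real.exp (-(u * Real.cosh y.2)) : ℝ) : ℂ) * ex T y.2)) := by
      funext y
      unfold FF
      push_cast
      ring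
    rw [h2, integral_const_mul, integral_prod_mul (fun a => ((Real.exp (-(u * Real.cosh a)) : ℝ) : ℂ) * ex T a)
      (fun a => ((Real.exp (-(u * Real.cosh a)) : ℝ) : ℂ) * ex T a), full hu]
    push_cast
    ring
  have h3 := (FF_int T).integral_prod_left
  have h4 : IntegrableOn (fun u : ℝ => ((4 * (u * K u ^ 2) : ℝ) : ℂ)) (Ioi 0) :=
    IntegrableOn.congr_fun h3 h1 measurableSet_Ioi
  have h5 : IntegrableOn (fun u : ℝ => 4 * (u * K u ^ 2)) (Ioi 0) := by
    have h6 := h4.re
    exact h6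
  have h7 : IntegrableOn (fun u : ℝ => u * K u ^ 2) (Ioi 0) := by
    have h8 := h5.const_mul (1 / 4)
    refine IntegrableOn.congr_fun h8 (fun u _ => ?_) measurableSet_Ioi
    change 1 / 4 * (4 * (u * K u ^ 2)) = u * K u ^ 2
    ring
  refine ⟨h7, ?_⟩
  have h9 := integral_integral_swap (f := fun u y => FF T (u, y)) (FF_int T)
  rw [setIntegral_congr_fun measurableSet_Ioi h1, integral_congr_ae (Eventually.of_forall (inner_u T)), PP_val hT,
    integral_complex_ofReal, integral_const_mul] at h9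
  have h10 : 4 * ∫ u in Ioi (0 : ℝ), u * K u ^ 2 = 2 * (Real.pi * T / Real.sinh (Real.pi * T)) := by exact_mod_cast h9
  rw [integral_const_mul]
  linarith

end Pool.Agent.Q261.L2
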