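import Pool.Agent.Q255.L2.StmK
import Pool.Agent.Q261.L2.KintB

/-!
# Project L2 of helper255: job S_KINT (the integral of `u K_{iT}(u)²`)
-/

set_option autoImplicit false

namespace Pool.Agent.Q261.L2

/-- JOB S_KINT. -/
theorem t_KINT : Pool.Agent.Q255.L2.S_KINT := by
  intro T hT
  exact kint hT

end Pool.Agent.Q261.L2
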