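import Mathlib

/-!
# The integral of `u K_{iT}(u)²` (job S_KINT of project L2 of helper255): the computation
-/

set_option autoImplicit false

namespace Pool.Agent.Q261.L2

open Filter Topology MeasureTheory Set

theorem cosh_low (t : ℝ) : (1 + t ^ 2) / 4 ≤ Real.cosh t := by
  have h1 : 1 + |t| + |t| ^ 2 / 2 ≤ Real.exp |t| := Real.quadratic_le_exp_of_nonneg (abs_nonneg t)
  have h2 : Real.exp |t| / 2 ≤ Real.cosh |t| := by
    rw [Real.cosh_eq]
    have := (Real.exp_pos (-|t|)).le
    linarith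
  rw [Real.cosh_abs] at h2
  have h3 : |t| ^ 2 = t ^ 2 := sq_abs t
  have h4 := abs_nonneg t
  rw [h3] at h1
  nlinarith [sq_nonneg t]

theorem int_inv_cosh : Integrable fun t : ℝ => 1 / Real.cosh t := by
  refine Integrable.mono' ((integrable_inv_one_add_sq).const_mul 4)
    (by
      refine Continuous.aestronglyMeasurable ?_
      exact continuous_const.div Real.continuous_cosh fun t => (Real.cosh_pos t).ne') (Eventually.of_forall fun t => ?_)
  have h1 := cosh_low t
  have h2 := Real.cosh_pos t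
  rw [Real.norm_eq_abs, abs_of_pos (by positivity)]
  have h3 : (0 : ℝ) < 1 + t ^ 2 := by positivity
  rw [div_le_iff₀ h2]
  calc (1 : ℝ) = 4 * (1 + t ^ 2)⁻¹ * ((1 + t ^ 2) / 4) := by field_simp
    _ ≤ 4 * (1 + t ^ 2)⁻¹ * Real.cosh t := mul_le_mul_of_nonneg_left h1 (by positivity)

theorem int_exp {u : ℝ} (hu : 0 < u) : Integrable fun t : ℝ => Real.exp (-(u * Real.cosh t)) := by
  refine Integrable.mono' (integrable_exp_neg_mul_sq (show 0 < u / 4 by positivity))
    (by
      refine Continuous.aestronglyMeasurable ?_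
      exact Real.continuous_exp.comp (continuous_const.mul Real.continuous_cosh).neg) (Eventually.of_forall fun t => ?_)
  rw [Real.norm_eq_abs, Real.abs_exp]
  apply Real.exp_le_exp.2
  have h1 := cosh_low t
  nlinarith [mul_le_mul_of_nonneg_left h1 hu.le]

/-- `exp (i T t)` -/
noncomputable def ex (T t : ℝ) : ℂ := Complex.exp (Complex.I * ((T * t : ℝ) : ℂ))

theorem ex_norm (T t : ℝ) : ‖ex T t‖ = 1 := by
  unfold ex
  rw [mul_comm]
  exact Complex.norm_exp_ofReal_mul_I _

theorem ex_add (T s t : ℝ) : ex T (s + t) = ex T s * ex T t := by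
  unfold ex
  rw [← Complex.exp_add]
  congr 1
  push_cast
  ring

theorem ex_cont (T : ℝ) : Continuous (ex T) := by
  unfold ex
  fun_prop

theorem ex_re_im (T t : ℝ) : ex T t = ((Real.cos (T * t) : ℝ) : ℂ) + ((Real.sin (T * t) : ℝ) : ℂ) * Complex.I := by
  unfold ex
  rw [mul_comm, Complex.exp_mul_I, ← Complex.ofReal_cos, ← Complex.ofReal_sin]

/-- the whole line -/
theorem full {T u : ℝ} (hu : 0 < u) : ∫ t : ℝ, ((Real.exp (-(u * Real.cosh t)) : ℝ) : ℂ) * ex T t =
    ((2 * ∫ t in Ioi (0 : ℝ), Real.exp (-(u * Real.cosh t)) * Real.cos (T * t) : ℝ) : ℂ) := by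
  have h0 := int_exp hu
  have hc : Integrable fun t : ℝ => Real.exp (-(u * Real.cosh t)) * Real.cos (T * t) := by
    refine h0.mono' (by
      refine Continuous.aestronglyMeasurable ?_
      exact (Real.continuous_exp.comp (continuous_const.mul Real.continuous_cosh).neg).mul
        (Real.continuous_cos.comp (continuous_const.mul continuous_id))) (Eventually.of_forall fun t => ?_)
    rw [norm_mul, Real.norm_eq_abs, Real.abs_exp]
    exact mul_le_of_le_one_right (Real.exp_pos _).le (Real.abs_cos_le_one _)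
  have hs : Integrable fun t : ℝ => Real.exp (-(u * Real.cosh t)) * Real.sin (T * t) := by
    refine h0.mono' (by
      refine Continuous.aestronglyMeasurable ?_
      exact (Real.continuous_exp.comp (continuous_const.mul Real.continuous_cosh).neg).mul
        (Real.continuous_sin.comp (continuous_const.mul continuous_id))) (Eventually.of_forall fun t => ?_)
    rw [norm_mul, Real.norm_eq_abs, Real.abs_exp]
    exact mul_le_of_le_one_right (Real.exp_pos _).le (Real.abs_sin_le_one _)
  have hs0 : ∫ t : ℝ, Real.exp (-(u * Real.cosh t)) * Real.sin (T * t) = 0 := by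
    have h1 := integral_neg_eq_self (fun t : ℝ => Real.exp (-(u * Real.cosh t)) * Real.sin (T * t)) volume
    have h2 : (fun t : ℝ => Real.exp (-(u * Real.cosh (-t))) * Real.sin (T * -t)) =
        fun t : ℝ => -(Real.exp (-(u * Real.cosh t)) * Real.sin (T * t)) := by
      funext t
      rw [Real.cosh_neg, mul_neg, Real.sin_neg, mul_neg]
    rw [h2, integral_neg] at h1
    linarith
  have hc0 : ∫ t : ℝ, Real.exp (-(u * Real.cosh t)) * Real.cos (T * t) =
      2 * ∫ t in Ioi (0 : ℝ), Real.exp (-(u * Real.cosh t)) * Real.cos (T * t) := by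
    rw [← integral_comp_abs (f := fun t => Real.exp (-(u * Real.cosh t)) * Real.cos (T * t))]
    refine integral_congr_ae (Eventually.of_forall fun t => ?_)
    dsimp only
    rw [Real.cosh_abs]
    congr 1
    rcases abs_choice t with h | h
    · rw [h]
    · rw [h, mul_neg, Real.cos_neg]
  have h3 : (fun t : ℝ => ((Real.exp (-(u * Real.cosh t)) : ℝ) : ℂ) * ex T t) = fun t : ℝ =>
      ((Real.exp (-(u * Real.cosh t)) * Real.cos (T * t) : ℝ) : ℂ) +
        ((Real.exp (-(u * Real.cosh t)) * Real.sin (T * t) : ℝ) : ℂ) * Complex.I := by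
    funext t
    rw [ex_re_im]
    push_cast
    ring
  rw [h3, integral_add hc.ofReal (hs.ofReal.mul_const _), integral_mul_const, integral_complex_ofReal, integral_complex_ofReal, hs0, hc0]
  simp

/-- the Beta integral -/
theorem beta (T : ℝ) : ∫ x : ℝ, ex T x * ((Real.exp x / (1 + Real.exp x) ^ 2 : ℝ) : ℂ) =
    Complex.betaIntegral (1 + Complex.I * T) (1 - Complex.I * T) := by
  set f : ℝ → ℝ := fun x => Real.exp x / (1 + Real.exp x) with hf
  have hpos : ∀ x : ℝ, 0 < 1 + Real.exp x := fun x => by have := Real.exp_pos x; linarith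
  have hf' : ∀ x ∈ (univ : Set ℝ), HasDerivWithinAt f (Real.exp x / (1 + Real.exp x) ^ 2) univ x := by
    intro x _
    have h1 := (Real.hasDerivAt_exp x).div ((Real.hasDerivAt_exp x).const_add 1) (hpos x).ne'
    refine (h1.congr_deriv ?_).hasDerivWithinAt
    congr 1
    ring
  have hmono : StrictMono f := by
    intro x y hxy
    have h1 := Real.exp_lt_exp.2 hxy
    rw [hf]
    dsimp only
    rw [div_lt_div_iff₀ (hpos x) (hpos y)]
    nlinarith
  have himg : f '' univ = Ioo 0 1 := by
    ext y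
    constructor
    · rintro ⟨x, -, rfl⟩
      exact ⟨div_pos (Real.exp_pos x) (hpos x), by rw [hf]; dsimp only; rw [div_lt_one (hpos x)]; linarith⟩
    · rintro ⟨h1, h2⟩
      refine ⟨Real.log (y / (1 - y)), mem_univ _, ?_⟩
      have h3 : 0 < 1 - y := by linarith
      rw [hf]
      dsimp only
      rw [Real.exp_log (div_pos h1 h3)]
      field_simp
      ring
  have h1 := integral_image_eq_integral_abs_deriv_smul MeasurableSet.univ hf' hmono.injective.injOn
    (fun y : ℝ => (y : ℂ) ^ (Complex.I * T) * (1 - (y : ℂ)) ^ (-(Complex.I * T)))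
  rw [himg] at h1
  have h2 : Complex.betaIntegral (1 + Complex.I * T) (1 - Complex.I * T) =
      ∫ y in Ioo (0 : ℝ) 1, (y : ℂ) ^ (Complex.I * T) * (1 - (y : ℂ)) ^ (-(Complex.I * T)) := by
    unfold Complex.betaIntegral
    rw [intervalIntegral.integral_of_le zero_le_one, integral_Ioc_eq_integral_Ioo]
    refine setIntegral_congr_fun measurableSet_Ioo fun y _ => ?_
    congr 2 <;> ring
  rw [h2, h1, setIntegral_univ]
  refine integral_congr_ae (Eventually.of_forall fun x => ?_)
  dsimp only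
  rw [abs_of_pos (div_pos (Real.exp_pos x) (pow_pos (hpos x) 2)), Complex.real_smul, mul_comm]
  congr 1
  have e1 : (1 : ℂ) - ((f x : ℝ) : ℂ) = ((1 / (1 + Real.exp x) : ℝ) : ℂ) := by
    rw [← Complex.ofReal_one, ← Complex.ofReal_sub]
    congr 1
    rw [hf]
    have := (hpos x).ne'
    field_simp
    ring
  rw [e1]
  have p1 : 0 < f x := div_pos (Real.exp_pos x) (hpos x)
  have p2 : 0 < 1 / (1 + Real.exp x) := div_pos one_pos (hpos x)
  rw [Complex.cpow_def_of_ne_zero (by exact_mod_cast p1.ne'), Complex.cpow_def_of_ne_zero (by exact_mod_cast p2.ne'),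
    ← Complex.ofReal_log p1.le, ← Complex.ofReal_log p2.le, ← Complex.exp_add]
  unfold ex
  congr 1
  have e2 : Real.log (f x) = x - Real.log (1 + Real.exp x) := by
    rw [hf]
    dsimp only
    rw [Real.log_div (Real.exp_pos x).ne' (hpos x).ne', Real.log_exp]
  have e3 : Real.log (1 / (1 + Real.exp x)) = - Real.log (1 + Real.exp x) := by
    rw [one_div, Real.log_inv]
  rw [e2, e3]
  push_cast
  ring

theorem beta_val {T : ℝ} (hT : 0 < T) : ∫ x : ℝ, ex T x * ((Real.exp x / (1 + Real.exp x) ^ 2 : ℝ) : ℂ) =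
    ((Real.pi * T / Real.sinh (Real.pi * T) : ℝ) : ℂ) := by
  rw [beta]
  have h1 := Complex.Gamma_mul_Gamma_eq_betaIntegral (s := 1 + Complex.I * T) (t := 1 - Complex.I * T)
    (by simp) (by simp)
  have h2 : (1 + Complex.I * T + (1 - Complex.I * T) : ℂ) = 2 := by ring
  have h3 : Complex.Gamma 2 = 1 := by
    rw [show (2 : ℂ) = ((1 : ℕ) : ℂ) + 1 by norm_num, Complex.Gamma_nat_eq_factorial]
    simp
  rw [h2, h3, one_mul] at h1
  rw [← h1]
  have hTc : (T : ℂ) ≠ 0 := by exact_mod_cast hT.ne'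
  have h4 : Complex.Gamma (1 + Complex.I * T) = Complex.I * T * Complex.Gamma (Complex.I * T) := by
    rw [add_comm, Complex.Gamma_add_one _ (mul_ne_zero Complex.I_ne_zero hTc)]
  rw [h4, mul_assoc, Complex.Gamma_mul_Gamma_one_sub]
  have h5 : (Real.pi : ℂ) * (Complex.I * T) = ((Real.pi * T : ℝ) : ℂ) * Complex.I := by
    push_cast
    ring
  rw [h5, Complex.sin_mul_I, ← Complex.ofReal_sinh]
  have h6 : Real.sinh (Real.pi * T) ≠ 0 := by
    have : 0 < Real.sinh (Real.pi * T) := Real.sinh_pos_iff.2 (by positivity)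
    exact this.ne'
  have h7 : ((Real.sinh (Real.pi * T) : ℝ) : ℂ) ≠ 0 := by exact_mod_cast h6
  push_cast at h7 ⊢
  field_simp

/-- integrability and the value at `T = 0` -/
theorem logi : ∫ x : ℝ, Real.exp x / (1 + Real.exp x) ^ 2 = 1 := by
  have h1 := beta 0
  have h2 : Complex.betaIntegral (1 + Complex.I * (0 : ℝ)) (1 - Complex.I * (0 : ℝ)) = 1 := by
    rw [Complex.ofReal_zero, mul_zero, add_zero, sub_zero, Complex.betaIntegral_eval_one_right (by simp)]
    norm_num
  rw [h2] at h1
  have h3 : (fun x : ℝ => ex 0 x * ((Real.exp x / (1 + Real.exp x) ^ 2 : ℝ) : ℂ)) =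
      fun x : ℝ => ((Real.exp x / (1 + Real.exp x) ^ 2 : ℝ) : ℂ) := by
    funext x
    unfold ex
    rw [zero_mul, Complex.ofReal_zero, mul_zero, Complex.exp_zero, one_mul]
  rw [h3, integral_complex_ofReal] at h1
  exact_mod_cast h1

theorem cosh_sq (x : ℝ) : 1 / Real.cosh x ^ 2 = 4 * (Real.exp (2 * x) / (1 + Real.exp (2 * x)) ^ 2) := by
  have h1 : Real.cosh x = Real.exp (-x) * (1 + Real.exp (2 * x)) / 2 := by
    rw [Real.cosh_eq, mul_add, mul_one, ← Real.exp_add]
    ring_nf
  have h2 : Real.exp (-x) ^ 2 * Real.exp (2 * x) = 1 := by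
    rw [sq, ← Real.exp_add, ← Real.exp_add]
    ring_nf
    exact Real.exp_zero
  have h5 := Real.exp_pos (-x)
  have h6 := Real.exp_pos (2 * x)
  rw [h1]
  generalize Real.exp (-x) = A at *
  generalize Real.exp (2 * x) = B at *
  have h4 : 0 < 1 + B := by linarith
  have h7 : (A * (1 + B) / 2) ^ 2 = A ^ 2 * (1 + B) ^ 2 / 4 := by ring
  rw [h7, div_eq_iff (by positivity)]
  have h8 : 4 * (B / (1 + B) ^ 2) * (A ^ 2 * (1 + B) ^ 2 / 4) = A ^ 2 * B := by
    field_simp
  rw [h8, h2]

theorem int_cosh_sq : ∫ q : ℝ, 1 / Real.cosh q ^ 2 = 2 := by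
  have h1 : (fun q : ℝ => 1 / Real.cosh q ^ 2) = fun q : ℝ => (fun y : ℝ => 4 * (Real.exp y / (1 + Real.exp y) ^ 2)) (2 * q) := by
    funext q
    exact cosh_sq q
  rw [h1, Measure.integral_comp_mul_left (fun y : ℝ => 4 * (Real.exp y / (1 + Real.exp y) ^ 2)) 2, integral_const_mul, logi]
  norm_num

end Pool.Agent.Q261.L2
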